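import Pool.Agent.Lib.MP_44c96e_nt.Orbit

namespace Pool.Agent.Lib.MP_44c96e_nt

open Filter Topology

lemma exists_period (n : ℕ) (hn : 2 ≤ n) : ∃ a b, 2 ≤ a ∧ 10 ^ (b + a) ≡ 10 ^ b [MOD n] := by
  have : NeZero n := ⟨by omega⟩
  obtain ⟨x, y, hne, hxy⟩ := Finite.exists_ne_map_eq_of_infinite (fun k : ℕ => (10 : ZMod n) ^ k)
  have key : ∀ x y : ℕ, x < y → (10 : ZMod n) ^ x = (10 : ZMod n) ^ y →
      ∃ a b, 2 ≤ a ∧ 10 ^ (b + a) ≡ 10 ^ b [MOD n] := by
    intro x y hlt h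
    have h1 : 10 ^ (x + (y - x)) ≡ 10 ^ x [MOD n] := by
      rw [← ZMod.natCast_eq_natCast_iff]
      push_cast
      rw [show x + (y - x) = y by omega]
      exact h.symm
    refine ⟨(y - x) * 2, x, by omega, pow_period n (y - x) x h1 2⟩
  rcases lt_or_gt_of_ne hne with h | h
  · exact key x y h hxy
  · exact key y x h hxy.symm

lemma ev (A c d : ℕ) (h : c < d) : ∃ N, ∀ R, N ≤ R → A * (R + 1) * c ^ R < d ^ R := by
  have hd : (0 : ℝ) < d := by
    have : 0 < d := by omega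
    exact_mod_cast this
  set r : ℝ := (c : ℝ) / d with hr
  have hr0 : 0 ≤ r := by positivity
  have hr1 : r < 1 := by
    rw [hr, div_lt_one hd]
    exact_mod_cast h
  have habs : |r| < 1 := by rw [abs_of_nonneg hr0]; exact hr1
  have h1 := tendsto_pow_const_mul_const_pow_of_abs_lt_one 1 habs
  have h2 := tendsto_pow_atTop_nhds_zero_of_lt_one hr0 hr1
  have h3 : Tendsto (fun R : ℕ => (A : ℝ) * ((R : ℝ) ^ 1 * r ^ R + r ^ R)) atTop (𝓝 0) := by
    have := (h1.add h2).const_mul (A : ℝ)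
    simpa using this
  have h4 : ∀ᶠ R : ℕ in atTop, (A : ℝ) * ((R : ℝ) ^ 1 * r ^ R + r ^ R) < 1 :=
    h3.eventually (gt_mem_nhds one_pos)
  obtain ⟨N, hN⟩ := eventually_atTop.mp h4
  refine ⟨N, fun R hR => ?_⟩
  have h5 := hN R hR
  have h6 : r ^ R * (d : ℝ) ^ R = (c : ℝ) ^ R := by
    rw [hr, div_pow, div_mul_cancel₀]
    positivity
  have h7 : (A : ℝ) * (R + 1) * (c : ℝ) ^ R < (d : ℝ) ^ R := by
    have hdR : (0 : ℝ) < (d : ℝ) ^ R := by positivity
    calc (A : ℝ) * (R + 1) * (c : ℝ) ^ R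
        = ((A : ℝ) * ((R : ℝ) ^ 1 * r ^ R + r ^ R)) * (d : ℝ) ^ R := by rw [← h6]; ring
      _ < 1 * (d : ℝ) ^ R := by exact mul_lt_mul_of_pos_right h5 hdR
      _ = (d : ℝ) ^ R := one_mul _
  exact_mod_cast h7

lemma fs_lt (m : ℕ) (hm : 0 < m) : m < fs m := by
  have := ds_pos m hm
  unfold fs
  omega

lemma crossing (N B : ℕ) (hB : ∀ x, x < N → ds x ≤ B) : ∀ (j m : ℕ), N - m ≤ j → 0 < m → m < N →
    ∃ k, N ≤ fs^[k] m ∧ fs^[k] m < N + B := by
  intro j
  induction j with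
  | zero => intro m h1 _ h3; omega
  | succ j ih =>
    intro m h1 h2 h3
    by_cases h : fs m < N
    · have h4 := fs_lt m h2
      obtain ⟨k, hk⟩ := ih (fs m) (by omega) (by omega) h
      exact ⟨k + 1, by rw [Function.iterate_succ_apply]; exact hk⟩
    · refine ⟨1, ?_⟩
      rw [Function.iterate_one]
      refine ⟨by omega, ?_⟩
      have := hB m h3
      unfold fs
      omega

lemma dvd_fs (d m : ℕ) (hd : d ∣ 9) : d ∣ fs m ↔ d ∣ m := by
  have e1 : ds m ≡ m [MOD d] := ((ds_modEq m).symm).of_dvd hd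
  have e2 : fs m ≡ m + m [MOD d] := Nat.ModEq.add_left _ e1
  rw [Nat.ModEq.dvd_iff e2 (dvd_refl d)]
  have h2 : Nat.Coprime d 2 := Nat.Coprime.coprime_dvd_left hd (by norm_num)
  constructor
  · intro h
    have : m + m = 2 * m := by ring
    rw [this] at h
    exact h2.dvd_of_dvd_mul_left h
  · intro h
    exact dvd_add h h

lemma dvd_iterate (d : ℕ) (hd : d ∣ 9) (k m : ℕ) : d ∣ fs^[k] m ↔ d ∣ m := by
  induction k generalizing m with
  | zero => simp
  | succ k ih => rw [Function.iterate_succ_apply, ih, dvd_fs _ _ hd]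

lemma iterate_pos (k m : ℕ) (hm : 0 < m) : 0 < fs^[k] m := by
  induction k generalizing m with
  | zero => simpa
  | succ k ih => rw [Function.iterate_succ_apply]; exact ih _ (lt_trans hm (fs_lt m hm))

/-- The orbit of m hits a multiple of n. -/
theorem hit (m n : ℕ) (hm : 0 < m) (hn : 0 < n) (hg : Nat.gcd n 9 ∣ m) :
    ∃ k, n ∣ fs^[k] m := by
  rcases Nat.lt_or_ge n 2 with h1 | hn2
  · have : n = 1 := by omega
    subst this
    exact ⟨0, one_dvd _⟩
  obtain ⟨a, b, ha, hab⟩ := exists_period n hn2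
  set W := a * (10 * n) + a * n with hW
  set A := 9 * (W + b + a) + 10 * n with hA
  obtain ⟨N1, hN1⟩ := ev A 1 10 (by norm_num)
  obtain ⟨N2, hN2⟩ := ev A (n - 1) n (by omega)
  set R := N1 + N2 + m + 1 with hR
  have hc1 : A * (R + 1) < 10 ^ R := by simpa using hN1 R (by omega)
  have hc2 : A * (R + 1) * (n - 1) ^ R < n ^ R := hN2 R (by omega)
  have hc3 : m < 10 ^ R := by
    calc m < 10 ^ m := Nat.lt_pow_self (by norm_num)
      _ ≤ 10 ^ R := Nat.pow_le_pow_right (by norm_num) (by omega)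
  have hpow : 10 ^ R ≤ 10 ^ (b + a * R) := by
    apply Nat.pow_le_pow_right (by norm_num)
    nlinarith
  set L := b + a * R with hL
  set P := 9 * (W * R + L) with hP
  have hPA : P ≤ A * (R + 1) := by
    rw [hP, hA, hL]; nlinarith
  have hA2 : R * (10 * n) + 9 * L ≤ A * (R + 1) := by
    rw [hA, hL]; nlinarith
  obtain ⟨U, hU1, hU2, hU3, hU4⟩ := claim n a b hn2 ha hab R R
    ((Finset.range P).filter (fun p => Nat.gcd n 9 ∣ R * (10 * n) + p))
    (by rw [← hL]; omega)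
    (by
      intro p hp
      have := Finset.mem_range.mp (Finset.mem_filter.mp hp).1
      rw [← hL]; omega)
    (fun p hp => (Finset.mem_filter.mp hp).2)
    (by
      have h1 : ((Finset.range P).filter (fun p => Nat.gcd n 9 ∣ R * (10 * n) + p)).card ≤ P := by
        calc _ ≤ (Finset.range P).card := Finset.card_filter_le _ _
          _ = P := Finset.card_range P
      calc _ ≤ A * (R + 1) * (n - 1) ^ R := Nat.mul_le_mul_right _ (h1.trans hPA)
        _ < n ^ R := hc2)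
  rw [← hL] at hU2 hU4
  rw [← hW] at hU3
  have hg9 : Nat.gcd n 9 ∣ 9 := Nat.gcd_dvd_right n 9
  have hUpos : 1 ≤ U := by
    rcases Nat.eq_zero_or_pos U with h | h
    · rw [h, ds_zero] at hU1
      have : 0 < R * (10 * n) := by positivity
      omega
    · exact h
  have hmN : m < U * 10 ^ L := by
    calc m < 10 ^ R := hc3
      _ ≤ 10 ^ L := hpow
      _ = 1 * 10 ^ L := by ring
      _ ≤ U * 10 ^ L := Nat.mul_le_mul_right _ hUpos
  have hB : ∀ x, x < U * 10 ^ L → ds x ≤ P := by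
    intro x hx
    apply ds_le
    calc x < U * 10 ^ L := hx
      _ ≤ 10 ^ (W * R) * 10 ^ L := Nat.mul_le_mul_right _ hU3.le
      _ = 10 ^ (W * R + L) := by rw [← pow_add]
  obtain ⟨k, hk1, hk2⟩ := crossing (U * 10 ^ L) P hB (U * 10 ^ L - m) m le_rfl hm hmN
  obtain ⟨p, hp⟩ : ∃ p, fs^[k] m = U * 10 ^ L + p := ⟨fs^[k] m - U * 10 ^ L, by omega⟩
  have hpP : p < P := by omega
  have htype : Nat.gcd n 9 ∣ R * (10 * n) + p := by
    have h1 : Nat.gcd n 9 ∣ fs^[k] m := (dvd_iterate _ hg9 k m).mpr hg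
    rw [hp] at h1
    have h2 : U * 10 ^ L + p ≡ R * (10 * n) * 1 + p [MOD (Nat.gcd n 9)] := by
      have e1 : U ≡ R * (10 * n) [MOD (Nat.gcd n 9)] := by
        have := (ds_modEq U).of_dvd hg9
        rwa [hU1] at this
      exact Nat.ModEq.add_right _ (Nat.ModEq.mul e1 ((pow_modEq_nine L).of_dvd hg9))
    have h3 := (Nat.ModEq.dvd_iff h2 (dvd_refl _)).mp h1
    simpa using h3
  obtain ⟨k', hk'⟩ := hU4 p (Finset.mem_filter.mpr ⟨Finset.mem_range.mpr hpP, htype⟩)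
  refine ⟨k' + k, ?_⟩
  rw [Function.iterate_add_apply, hp]
  exact hk'

theorem main (m n : ℕ) (hm : 0 < m) (hn : 0 < n) :
    (∀ K, ∃ k, K ≤ k ∧ n ∣ fs^[k] m) ↔ Nat.gcd n 9 ∣ m := by
  constructor
  · intro h
    obtain ⟨k, _, hk⟩ := h 0
    exact (dvd_iterate _ (Nat.gcd_dvd_right n 9) k m).mp ((Nat.gcd_dvd_left n 9).trans hk)
  · intro h K
    obtain ⟨k, hk⟩ := hit (fs^[K] m) n (iterate_pos K m hm) hn
      ((dvd_iterate _ (Nat.gcd_dvd_right n 9) K m).mpr h)
    refine ⟨k + K, by omega, ?_⟩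
    rw [Function.iterate_add_apply]
    exact hk

end Pool.Agent.Lib.MP_44c96e_nt
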