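import Mathlib

/-! Orbits of x ↦ x + (decimal digit sum of x) hit multiples of n. -/

namespace Pool.Agent.Lib.MP_44c96e_nt

/-- decimal digit sum -/
def ds (m : ℕ) : ℕ := (Nat.digits 10 m).sum

/-- x ↦ x + digit sum -/
def fs (m : ℕ) : ℕ := m + ds m

lemma ds_zero : ds 0 = 0 := by simp [ds]

lemma ds_step (q r : ℕ) (hr : r < 10) : ds (10 * q + r) = ds q + r := by
  unfold ds
  rcases Nat.eq_zero_or_pos (10 * q + r) with h | h
  · have hq : q = 0 := by omega
    have hr0 : r = 0 := by omega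
    subst hq; subst hr0; simp
  · rw [Nat.digits_def' (by norm_num) h]
    have h1 : (10 * q + r) % 10 = r := by omega
    have h2 : (10 * q + r) / 10 = q := by omega
    rw [h1, h2, List.sum_cons, add_comm]

lemma ds_lt_ten (r : ℕ) (hr : r < 10) : ds r = r := by
  have := ds_step 0 r hr
  simpa [ds_zero] using this

lemma ds_add (H : ℕ) : ∀ (L y : ℕ), y < 10 ^ L → ds (H * 10 ^ L + y) = ds H + ds y := by
  intro L
  induction L with
  | zero =>
    intro y hy
    have : y = 0 := by simpa using hy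
    subst this
    simp [ds_zero]
  | succ L ih =>
    intro y hy
    have h1 : y / 10 < 10 ^ L := by
      rw [pow_succ] at hy
      omega
    have h2 : H * 10 ^ (L + 1) + y = 10 * (H * 10 ^ L + y / 10) + y % 10 := by
      rw [pow_succ]
      have := Nat.div_add_mod y 10
      ring_nf
      ring_nf at this
      omega
    have h3 : y = 10 * (y / 10) + y % 10 := (Nat.div_add_mod y 10).symm
    rw [h2, ds_step _ _ (Nat.mod_lt _ (by norm_num)), ih _ h1]
    conv_rhs => rw [h3, ds_step _ _ (Nat.mod_lt _ (by norm_num))]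
    ring

lemma ds_le : ∀ (D m : ℕ), m < 10 ^ D → ds m ≤ 9 * D := by
  intro D
  induction D with
  | zero =>
    intro m hm
    have : m = 0 := by simpa using hm
    subst this
    simp [ds_zero]
  | succ D ih =>
    intro m hm
    have h1 : m / 10 < 10 ^ D := by
      rw [pow_succ] at hm
      omega
    have h3 : m = 10 * (m / 10) + m % 10 := (Nat.div_add_mod m 10).symm
    rw [h3, ds_step _ _ (Nat.mod_lt _ (by norm_num))]
    have := ih _ h1
    have := Nat.mod_lt m (show 10 > 0 by norm_num)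
    omega

lemma ds_modEq (m : ℕ) : m ≡ ds m [MOD 9] := Nat.modEq_nine_digits_sum m

lemma ds_pos (m : ℕ) (hm : 0 < m) : 0 < ds m := by
  induction m using Nat.strong_induction_on with
  | _ m ih =>
    have h3 : m = 10 * (m / 10) + m % 10 := (Nat.div_add_mod m 10).symm
    rw [h3, ds_step _ _ (Nat.mod_lt _ (by norm_num))]
    rcases Nat.eq_zero_or_pos (m / 10) with h | h
    · have : 0 < m % 10 := by omega
      omega
    · have := ih (m / 10) (by omega) h
      omega

lemma ds_pow (l : ℕ) : ds (10 ^ l) = 1 := by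
  have := ds_add 1 l 0 (by positivity)
  simpa [ds_zero, ds_lt_ten 1 (by norm_num)] using this

lemma ds_nines (l : ℕ) : ds (10 ^ l - 1) = 9 * l := by
  induction l with
  | zero => simp [ds_zero]
  | succ l ih =>
    have h : 10 ^ (l + 1) - 1 = 10 * (10 ^ l - 1) + 9 := by
      have : 1 ≤ 10 ^ l := Nat.one_le_pow _ _ (by norm_num)
      rw [pow_succ]
      omega
    rw [h, ds_step _ _ (by norm_num), ih]
    ring

lemma pow_modEq_nine (L : ℕ) : 10 ^ L ≡ 1 [MOD 9] := by
  have : 10 ≡ 1 [MOD 9] := by decide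
  simpa using this.pow L

/-- First exit of the low part: it does not depend on the prefix, only on its digit sum. -/
lemma exit (L σ : ℕ) (hσ : 0 < σ) : ∀ (j y : ℕ), 10 ^ L - y ≤ j → y < 10 ^ L →
    ∃ p, p < σ + 9 * L ∧ (∀ d, d ∣ 9 → d ∣ σ + y → d ∣ σ + 1 + p) ∧
      ∀ H, ds H = σ → ∃ k, fs^[k] (H * 10 ^ L + y) = (H + 1) * 10 ^ L + p := by
  intro j
  induction j with
  | zero => intro y h1 h2; omega
  | succ j ih =>
    intro y h1 h2
    have hmod : ∀ d, d ∣ 9 → d ∣ σ + y → d ∣ σ + (y + ds y + σ) := by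
      intro d hd h
      have e1 : ds y ≡ y [MOD d] := ((ds_modEq y).symm).of_dvd hd
      have e2 : σ + (y + ds y + σ) ≡ σ + (y + y + σ) [MOD d] :=
        Nat.ModEq.add_left _ (Nat.ModEq.add_right _ (Nat.ModEq.add_left _ e1))
      have e3 : σ + (y + y + σ) = 2 * (σ + y) := by ring
      rw [e3] at e2
      exact (Nat.ModEq.dvd_iff e2 (dvd_refl d)).mpr (Dvd.dvd.mul_left h 2)
    by_cases hlt : y + ds y + σ < 10 ^ L
    · obtain ⟨p, hp1, hp2, hp3⟩ := ih (y + ds y + σ) (by omega) hlt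
      refine ⟨p, hp1, ?_, ?_⟩
      · intro d hd h
        exact hp2 d hd (hmod d hd h)
      · intro H hH
        obtain ⟨k, hk⟩ := hp3 H hH
        refine ⟨k + 1, ?_⟩
        rw [Function.iterate_succ_apply]
        have : fs (H * 10 ^ L + y) = H * 10 ^ L + (y + ds y + σ) := by
          unfold fs
          rw [ds_add H L y h2, hH]
          ring
        rw [this, hk]
    · have hy := ds_le L y h2
      refine ⟨y + ds y + σ - 10 ^ L, by omega, ?_, ?_⟩
      · intro d hd h
        have h3 := hmod d hd h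
        have h4 : σ + (y + ds y + σ) = (σ + (y + ds y + σ - 10 ^ L)) + 10 ^ L := by omega
        have h5 : σ + (y + ds y + σ) ≡ (σ + (y + ds y + σ - 10 ^ L)) + 1 [MOD d] := by
          rw [h4]
          exact Nat.ModEq.add_left _ ((pow_modEq_nine L).of_dvd hd)
        have h6 := (Nat.ModEq.dvd_iff h5 (dvd_refl d)).mp h3
        have h7 : σ + 1 + (y + ds y + σ - 10 ^ L) = (σ + (y + ds y + σ - 10 ^ L)) + 1 := by ring
        rw [h7]
        exact h6
      · intro H hH
        refine ⟨1, ?_⟩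
        rw [Function.iterate_one]
        unfold fs
        rw [ds_add H L y h2, hH]
        have : (H + 1) * 10 ^ L = H * 10 ^ L + 10 ^ L := by ring
        rw [this]
        omega

/-- Filler numbers with prescribed digit sum and residue. -/
lemma fill (n a b : ℕ) (ha : 2 ≤ a) (hab : 10 ^ (b + a) ≡ 10 ^ b [MOD n]) (t u : ℕ) :
    ∃ G, ds G = t + u ∧ G * 10 ^ b ≡ (u + 10 * t) * 10 ^ b [MOD n] ∧ G < 10 ^ (a * (t + u)) := by
  have key : ∀ G X e : ℕ, e < 10 ^ a → (G < 10 ^ X) → (G * 10 ^ a + e) * 10 ^ b ≡ G * 10 ^ b + e * 10 ^ b [MOD n] ∧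
      G * 10 ^ a + e < 10 ^ (X + a) := by
    intro G X e he hG
    constructor
    · have h1 : (G * 10 ^ a + e) * 10 ^ b = G * 10 ^ (b + a) + e * 10 ^ b := by
        rw [pow_add]; ring
      rw [h1]
      exact Nat.ModEq.add_right _ (Nat.ModEq.mul_left _ hab)
    · rw [pow_add]
      have : G + 1 ≤ 10 ^ X := hG
      calc G * 10 ^ a + e < G * 10 ^ a + 10 ^ a := by omega
        _ = (G + 1) * 10 ^ a := by ring
        _ ≤ 10 ^ X * 10 ^ a := Nat.mul_le_mul_right _ this
  have h100 : 100 ≤ 10 ^ a := by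
    calc 100 = 10 ^ 2 := by norm_num
      _ ≤ 10 ^ a := Nat.pow_le_pow_right (by norm_num) ha
  induction t with
  | zero =>
    induction u with
    | zero => exact ⟨0, by simp [ds_zero], by simp; exact Nat.ModEq.refl _, by simp⟩
    | succ u ih =>
      obtain ⟨G, h1, h2, h3⟩ := ih
      obtain ⟨k1, k2⟩ := key G _ 1 (by omega) h3
      refine ⟨G * 10 ^ a + 1, ?_, ?_, ?_⟩
      · rw [ds_add G a 1 (by omega), h1, ds_lt_ten 1 (by norm_num)]; ring
      · refine k1.trans ?_
        have : (u + 1 + 10 * 0) * 10 ^ b = (u + 10 * 0) * 10 ^ b + 1 * 10 ^ b := by ring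
        rw [this]
        exact Nat.ModEq.add_right _ h2
      · have : a * (0 + (u + 1)) = a * (0 + u) + a := by ring
        rw [this]; exact k2
  | succ t ih =>
    obtain ⟨G, h1, h2, h3⟩ := ih
    obtain ⟨k1, k2⟩ := key G _ 10 (by omega) h3
    refine ⟨G * 10 ^ a + 10, ?_, ?_, ?_⟩
    · have h10 : ds 10 = 1 := by simpa using ds_pow 1
      rw [ds_add G a 10 (by omega), h1, h10]; ring
    · refine k1.trans ?_
      have : (u + 10 * (t + 1)) * 10 ^ b = (u + 10 * t) * 10 ^ b + 10 * 10 ^ b := by ring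
      rw [this]
      exact Nat.ModEq.add_right _ h2
    · have : a * (t + 1 + u) = a * (t + u) + a := by ring
      rw [this]; exact k2

/-- 10^(b+a*q) ≡ 10^b. -/
lemma pow_period (n a b : ℕ) (hab : 10 ^ (b + a) ≡ 10 ^ b [MOD n]) (q : ℕ) :
    10 ^ (b + a * q) ≡ 10 ^ b [MOD n] := by
  induction q with
  | zero => simp; exact Nat.ModEq.refl _
  | succ q ih =>
    have h : 10 ^ (b + a * (q + 1)) = 10 ^ (b + a) * 10 ^ (a * q) := by
      rw [← pow_add]; ring_nf
    rw [h]
    have h2 : 10 ^ (b + a) * 10 ^ (a * q) ≡ 10 ^ b * 10 ^ (a * q) [MOD n] :=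
      Nat.ModEq.mul_right _ hab
    refine h2.trans ?_
    rw [← pow_add]
    exact ih

/-- The digit block with parameter l. -/
lemma block (n a b : ℕ) (hn : 2 ≤ n) (ha : 2 ≤ a) (hab : 10 ^ (b + a) ≡ 10 ^ b [MOD n])
    (l : ℕ) (hl : l < n) :
    ∃ E, ds E = 10 * n ∧ E * 10 ^ b ≡ (10 * n) * 10 ^ b [MOD n] ∧
      ds (E + 1) + 9 * l = 10 * n + 1 ∧ E + 1 < 10 ^ (a * (10 * n) + a * n) := by
  have : NeZero n := ⟨by omega⟩
  -- repunit
  obtain ⟨r, hr⟩ : ∃ r : ℕ, 10 ^ l = 9 * r + 1 := by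
    have h := pow_modEq_nine l
    have h1 : 1 ≤ 10 ^ l := Nat.one_le_pow _ _ (by norm_num)
    have h2 := (Nat.modEq_iff_dvd' h1).mp h.symm
    obtain ⟨r, hr⟩ := h2
    exact ⟨r, by omega⟩
  set t : ℕ := ((l : ZMod n) - (r : ZMod n)).val with ht
  have htn : t < n := ZMod.val_lt _
  have htc : (t : ZMod n) = (l : ZMod n) - (r : ZMod n) := by
    rw [ht]; exact ZMod.natCast_zmod_val _
  obtain ⟨G, h1, h2, h3⟩ := fill n a b ha hab t (10 * n - 9 * l - t)
  have hsum : t + (10 * n - 9 * l - t) = 10 * n - 9 * l := by omega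
  have hc : l < a * n := by nlinarith
  have hlt1 : 10 ^ l - 1 < 10 ^ (a * n) := by
    have : 10 ^ l < 10 ^ (a * n) := Nat.pow_lt_pow_right (by norm_num) hc
    omega
  have hlt2 : 10 ^ l < 10 ^ (a * n) := Nat.pow_lt_pow_right (by norm_num) hc
  have hpos : 1 ≤ 10 ^ l := Nat.one_le_pow _ _ (by norm_num)
  have hE1 : G * 10 ^ (a * n) + (10 ^ l - 1) + 1 = G * 10 ^ (a * n) + 10 ^ l := by omega
  refine ⟨G * 10 ^ (a * n) + (10 ^ l - 1), ?_, ?_, ?_, ?_⟩
  · rw [ds_add G _ _ hlt1, h1, ds_nines]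
    omega
  · have e1 : (G * 10 ^ (a * n) + (10 ^ l - 1)) * 10 ^ b
        = G * 10 ^ (b + a * n) + (10 ^ l - 1) * 10 ^ b := by
      rw [pow_add]; ring
    rw [e1]
    have e2 : G * 10 ^ (b + a * n) + (10 ^ l - 1) * 10 ^ b
        ≡ G * 10 ^ b + (10 ^ l - 1) * 10 ^ b [MOD n] :=
      Nat.ModEq.add_right _ (Nat.ModEq.mul_left _ (pow_period n a b hab n))
    refine e2.trans ?_
    have e3 : G * 10 ^ b + (10 ^ l - 1) * 10 ^ b ≡
        (10 * n - 9 * l - t + 10 * t) * 10 ^ b + (10 ^ l - 1) * 10 ^ b [MOD n] :=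
      Nat.ModEq.add_right _ h2
    refine e3.trans ?_
    rw [← add_mul]
    apply Nat.ModEq.mul_right
    rw [← ZMod.natCast_eq_natCast_iff]
    have e4 : 10 * n - 9 * l - t + 10 * t + (10 ^ l - 1) + 9 * l = 10 * n + 9 * t + 9 * r := by
      omega
    have e5 : ((10 * n - 9 * l - t + 10 * t + (10 ^ l - 1) : ℕ) : ZMod n) + 9 * l
        = ((10 * n : ℕ) : ZMod n) + 9 * t + 9 * r := by
      have := congrArg (fun x : ℕ => (x : ZMod n)) e4
      push_cast at this ⊢
      exact this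
    have e6 : ((10 * n - 9 * l - t + 10 * t + (10 ^ l - 1) : ℕ) : ZMod n)
        = ((10 * n : ℕ) : ZMod n) + 9 * t + 9 * r - 9 * l := by
      rw [← e5]; ring
    rw [e6, htc]
    ring
  · rw [hE1, ds_add G _ _ hlt2, h1, ds_pow]
    omega
  · rw [hE1, pow_add]
    have hG : G + 1 ≤ 10 ^ (a * (10 * n)) := by
      have : 10 ^ (a * (t + (10 * n - 9 * l - t))) ≤ 10 ^ (a * (10 * n)) := by
        apply Nat.pow_le_pow_right (by norm_num)
        apply Nat.mul_le_mul_left
        omega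
      omega
    calc G * 10 ^ (a * n) + 10 ^ l < G * 10 ^ (a * n) + 10 ^ (a * n) := by omega
      _ = (G + 1) * 10 ^ (a * n) := by ring
      _ ≤ 10 ^ (a * (10 * n)) * 10 ^ (a * n) := Nat.mul_le_mul_right _ hG

/-- For each offset some l is good. -/
lemma good_exists (n c : ℕ) (hn : 2 ≤ n) (hc : Nat.gcd n 9 ∣ c) :
    ∃ l, l < n ∧ (n : ℤ) ∣ (c : ℤ) - 9 * l := by
  have h0 : Int.gcd (n : ℤ) 9 = Nat.gcd n 9 := Int.gcd_natCast_natCast n 9
  have h1' : Int.gcd (n : ℤ) 9 ∣ c := by rw [h0]; exact hc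
  obtain ⟨x, y, hxy⟩ := Int.gcd_dvd_iff.mp h1'
  have hn0 : (n : ℤ) ≠ 0 := by omega
  refine ⟨(y % n).toNat, ?_, ?_⟩
  · have h2 := Int.emod_lt_of_pos y (show (0 : ℤ) < n by omega)
    have h3 := Int.emod_nonneg y hn0
    omega
  · have h3 := Int.emod_nonneg y hn0
    rw [Int.toNat_of_nonneg h3, hxy]
    have h4 : y % n = y - n * (y / n) := by
      have := Int.emod_add_mul_ediv y n
      linarith
    rw [h4]
    exact ⟨x + 9 * (y / n), by ring⟩

lemma claim (n a b : ℕ) (hn : 2 ≤ n) (ha : 2 ≤ a) (hab : 10 ^ (b + a) ≡ 10 ^ b [MOD n]) :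
    ∀ (R q : ℕ) (S : Finset ℕ), R * (10 * n) + 9 * (b + a * q) < 10 ^ (b + a * q) →
      (∀ p ∈ S, p < 10 ^ (b + a * q)) → (∀ p ∈ S, Nat.gcd n 9 ∣ R * (10 * n) + p) →
      S.card * (n - 1) ^ R < n ^ R →
      ∃ U, ds U = R * (10 * n) ∧ U * 10 ^ (b + a * q) ≡ R * (10 * n) * 10 ^ b [MOD n] ∧
        U < 10 ^ ((a * (10 * n) + a * n) * R) ∧
        ∀ p ∈ S, ∃ k, n ∣ fs^[k] (U * 10 ^ (b + a * q) + p) := by
  intro R
  induction R with
  | zero =>
    intro q S _ _ _ hcard
    have hS : S = ∅ := by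
      rw [← Finset.card_eq_zero]
      simpa using hcard
    subst hS
    refine ⟨0, by simp [ds_zero], by simp; exact Nat.ModEq.refl _, by simp, by simp⟩
  | succ R ih =>
    intro q S hbig hlt htype hcard
    set L := b + a * q with hL
    set κ := 10 * n with hκ
    set σ := (R + 1) * κ with hσ
    set W := a * κ + a * n with hW
    have hσpos : 0 < σ := by positivity
    have hexit : ∀ y, y < 10 ^ L → ∃ p, p < σ + 9 * L ∧
        (∀ d, d ∣ 9 → d ∣ σ + y → d ∣ σ + 1 + p) ∧
        ∀ H, ds H = σ → ∃ k, fs^[k] (H * 10 ^ L + y) = (H + 1) * 10 ^ L + p :=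
      fun y hy => exit L σ hσpos (10 ^ L - y) y le_rfl hy
    choose! ex hex1 hex2 hex3 using hexit
    have hg9 : Nat.gcd n 9 ∣ 9 := Nat.gcd_dvd_right n 9
    have hgn : Nat.gcd n 9 ∣ n := Nat.gcd_dvd_left n 9
    -- type of ex p
    have hty : ∀ p ∈ S, Nat.gcd n 9 ∣ σ + 1 + ex p := fun p hp =>
      hex2 p (hlt p hp) _ hg9 (htype p hp)
    -- good l for each p
    have hgood : ∀ p ∈ S, ∃ l, l < n ∧
        (n : ℤ) ∣ ((σ * 10 ^ b + 10 ^ b + ex p + ds (ex p) + σ + 1 : ℕ) : ℤ) - 9 * l := by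
      intro p hp
      apply good_exists n _ hn
      have e1 : σ * 10 ^ b + 10 ^ b + ex p + ds (ex p) + σ + 1
          ≡ σ * 1 + 1 + ex p + ex p + σ + 1 [MOD (Nat.gcd n 9)] := by
        have p1 : 10 ^ b ≡ 1 [MOD (Nat.gcd n 9)] := (pow_modEq_nine b).of_dvd hg9
        have p2 : ds (ex p) ≡ ex p [MOD (Nat.gcd n 9)] := ((ds_modEq (ex p)).symm).of_dvd hg9
        exact Nat.ModEq.add_right _ (Nat.ModEq.add_right _ (Nat.ModEq.add
          (Nat.ModEq.add_right _ (Nat.ModEq.add (Nat.ModEq.mul_left _ p1) p1)) p2))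
      rw [Nat.ModEq.dvd_iff e1 (dvd_refl _)]
      have e2 : σ * 1 + 1 + ex p + ex p + σ + 1 = 2 * (σ + 1 + ex p) := by ring
      rw [e2]
      exact Dvd.dvd.mul_left (hty p hp) 2
    choose! lam hlam1 hlam2 using hgood
    -- pigeonhole
    obtain ⟨l, hl, hfib⟩ : ∃ l, l < n ∧ S.card ≤ n * (S.filter (fun p => lam p = l)).card := by
      by_contra hcon
      push Not at hcon
      have h1 : S.card = ∑ l ∈ Finset.range n, (S.filter (fun p => lam p = l)).card :=
        Finset.card_eq_sum_card_fiberwise (fun p hp => by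
          simpa using hlam1 p hp)
      have h2 : n * S.card = ∑ l ∈ Finset.range n, n * (S.filter (fun p => lam p = l)).card := by
        rw [← Finset.mul_sum, ← h1]
      have h3 : ∑ l ∈ Finset.range n, n * (S.filter (fun p => lam p = l)).card
          < ∑ _l ∈ Finset.range n, S.card := by
        apply Finset.sum_lt_sum_of_nonempty
        · exact ⟨0, by simp; omega⟩
        · intro l hl
          exact hcon l (by simpa using hl)
      rw [← h2] at h3
      simp at h3
    obtain ⟨E, hE1, hE2, hE3, hE4⟩ := block n a b hn ha hab l hl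
    rw [← hκ] at hE1 hE2 hE3 hE4
    rw [← hW] at hE4
    -- new set
    set S' := (S.filter (fun p => lam p ≠ l)).image (fun p => (E + 1) * 10 ^ L + ex p) with hS'
    have hexL : ∀ p ∈ S, ex p < 10 ^ L := by
      intro p hp
      have := hex1 p (hlt p hp)
      omega
    have hL' : b + a * (q + κ + n) = L + W := by
      rw [hL, hW]; ring
    have hpowL' : 10 ^ (b + a * (q + κ + n)) = 10 ^ W * 10 ^ L := by
      rw [hL', pow_add]; ring
    have hWbig : 9 * W + 1 ≤ 10 ^ W := by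
      have : ∀ w : ℕ, 9 * w + 1 ≤ 10 ^ w := by
        intro w
        induction w with
        | zero => simp
        | succ w ihw => rw [pow_succ]; omega
      exact this W
    have hcond1 : R * κ + 9 * (b + a * (q + κ + n)) < 10 ^ (b + a * (q + κ + n)) := by
      rw [hpowL', hL']
      have h1 : 1 ≤ 10 ^ L := Nat.one_le_pow _ _ (by norm_num)
      have h2 : (9 * W + 1) * 10 ^ L ≤ 10 ^ W * 10 ^ L := Nat.mul_le_mul_right _ hWbig
      have h3 : (9 * W + 1) * 10 ^ L = 9 * W * 10 ^ L + 10 ^ L := by ring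
      have h4 : 9 * W ≤ 9 * W * 10 ^ L := Nat.le_mul_of_pos_right _ h1
      have h5 : R * κ ≤ σ := by rw [hσ]; exact Nat.mul_le_mul_right _ (by omega)
      omega
    have hcond2 : ∀ y ∈ S', y < 10 ^ (b + a * (q + κ + n)) := by
      intro y hy
      rw [hS', Finset.mem_image] at hy
      obtain ⟨p, hp, rfl⟩ := hy
      have hpS : p ∈ S := (Finset.mem_filter.mp hp).1
      rw [hpowL']
      calc (E + 1) * 10 ^ L + ex p < (E + 1) * 10 ^ L + 10 ^ L := by
            have := hexL p hpS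
            omega
        _ = (E + 1 + 1) * 10 ^ L := by ring
        _ ≤ 10 ^ W * 10 ^ L := Nat.mul_le_mul_right _ hE4
    have hcond3 : ∀ y ∈ S', Nat.gcd n 9 ∣ R * κ + y := by
      intro y hy
      rw [hS', Finset.mem_image] at hy
      obtain ⟨p, hp, rfl⟩ := hy
      have hpS : p ∈ S := (Finset.mem_filter.mp hp).1
      have e1 : R * κ + ((E + 1) * 10 ^ L + ex p) ≡ R * κ + ((κ + 1) * 1 + ex p)
          [MOD (Nat.gcd n 9)] := by
        have p1 : 10 ^ L ≡ 1 [MOD (Nat.gcd n 9)] := (pow_modEq_nine L).of_dvd hg9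
        have p2 : E ≡ κ [MOD (Nat.gcd n 9)] := by
          have := (ds_modEq E).of_dvd hg9
          rwa [hE1] at this
        exact Nat.ModEq.add_left _ (Nat.ModEq.add_right _
          (Nat.ModEq.mul (Nat.ModEq.add_right _ p2) p1))
      rw [Nat.ModEq.dvd_iff e1 (dvd_refl _)]
      have e2 : R * κ + ((κ + 1) * 1 + ex p) = σ + 1 + ex p := by rw [hσ]; ring
      rw [e2]
      exact hty p hpS
    have hcond4 : S'.card * (n - 1) ^ R < n ^ R := by
      have h1 : S'.card ≤ (S.filter (fun p => lam p ≠ l)).card := Finset.card_image_le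
      have h2 : (S.filter (fun p => lam p = l)).card + (S.filter (fun p => ¬ lam p = l)).card
          = S.card := Finset.card_filter_add_card_filter_not _
      have h3 : n * S'.card ≤ (n - 1) * S.card := by
        obtain ⟨m, rfl⟩ : ∃ m, n = m + 1 := ⟨n - 1, by omega⟩
        simp only [Nat.add_sub_cancel]
        have h4 : (m + 1) * S'.card ≤ (m + 1) * (S.filter (fun p => ¬ lam p = l)).card :=
          Nat.mul_le_mul_left _ h1
        have h5 : (m + 1) * S.card = (m + 1) * (S.filter (fun p => lam p = l)).card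
            + (m + 1) * (S.filter (fun p => ¬ lam p = l)).card := by rw [← h2]; ring
        have h6 : (m + 1) * S.card = m * S.card + S.card := by ring
        omega
      have h7 : n * (S'.card * (n - 1) ^ R) < n * n ^ R := by
        calc n * (S'.card * (n - 1) ^ R) = (n * S'.card) * (n - 1) ^ R := by ring
          _ ≤ ((n - 1) * S.card) * (n - 1) ^ R := Nat.mul_le_mul_right _ h3
          _ = S.card * (n - 1) ^ (R + 1) := by rw [pow_succ]; ring
          _ < n ^ (R + 1) := hcard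
          _ = n * n ^ R := by rw [pow_succ]; ring
      exact Nat.lt_of_mul_lt_mul_left h7
    obtain ⟨U, hU1, hU2, hU3, hU4⟩ := ih (q + κ + n) S' hcond1 hcond2 hcond3 hcond4
    have hEW : E < 10 ^ W := by omega
    have hU' : ds (U * 10 ^ W + E) = σ := by
      rw [ds_add U W E hEW, hU1, hE1, hσ]; ring
    have hresid : (U * 10 ^ W + E) * 10 ^ L ≡ σ * 10 ^ b [MOD n] := by
      have e1 : (U * 10 ^ W + E) * 10 ^ L = U * 10 ^ (b + a * (q + κ + n)) + E * 10 ^ L := by
        rw [hpowL']; ring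
      have e2 : E * 10 ^ L ≡ κ * 10 ^ b [MOD n] := by
        have : E * 10 ^ L ≡ E * 10 ^ b [MOD n] :=
          Nat.ModEq.mul_left _ (pow_period n a b hab q)
        exact this.trans hE2
      have e3 : σ * 10 ^ b = R * κ * 10 ^ b + κ * 10 ^ b := by rw [hσ]; ring
      rw [e1, e3]
      exact Nat.ModEq.add hU2 e2
    refine ⟨U * 10 ^ W + E, hU', hresid, ?_, ?_⟩
    · calc U * 10 ^ W + E < U * 10 ^ W + 10 ^ W := by omega
        _ = (U + 1) * 10 ^ W := by ring
        _ ≤ 10 ^ (W * R) * 10 ^ W := Nat.mul_le_mul_right _ hU3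
        _ = 10 ^ (W * (R + 1)) := by rw [← pow_add]; ring_nf
    · intro p hp
      obtain ⟨k, hk⟩ := hex3 p (hlt p hp) (U * 10 ^ W + E) hU'
      by_cases hpl : lam p = l
      · refine ⟨k + 1, ?_⟩
        rw [Function.iterate_succ_apply', hk]
        unfold fs
        have hd1 : ds ((U * 10 ^ W + E + 1) * 10 ^ L + ex p) = R * κ + ds (E + 1) + ds (ex p) := by
          rw [ds_add _ L _ (hexL p hp), add_assoc (U * 10 ^ W) E 1, ds_add U W (E + 1) hE4, hU1]
        rw [hd1]
        have hg := hlam2 p hp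
        rw [hpl] at hg
        have hres2 : (((U * 10 ^ W + E) * 10 ^ L : ℕ) : ℤ) ≡ ((σ * 10 ^ b : ℕ) : ℤ) [ZMOD n] :=
          Int.natCast_modEq_iff.mpr hresid
        have hres3 : ((10 ^ L : ℕ) : ℤ) ≡ ((10 ^ b : ℕ) : ℤ) [ZMOD n] :=
          Int.natCast_modEq_iff.mpr (pow_period n a b hab q)
        obtain ⟨w1, hw1⟩ := hres2.dvd
        obtain ⟨w2, hw2⟩ := hres3.dvd
        obtain ⟨w3, hw3⟩ := hg
        have hfin : (n : ℤ) ∣ (((U * 10 ^ W + E + 1) * 10 ^ L + ex p
            + (R * κ + ds (E + 1) + ds (ex p)) : ℕ) : ℤ) := by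
          refine ⟨w3 - w1 - w2, ?_⟩
          have hE3' : (ds (E + 1) : ℤ) = κ + 1 - 9 * l := by
            have := congrArg (fun x : ℕ => (x : ℤ)) hE3
            push_cast at this
            linarith
          have hσ' : (σ : ℤ) = (R + 1) * κ := by rw [hσ]; push_cast; ring
          push_cast at hw1 hw2 hw3 ⊢
          rw [hE3']
          rw [hσ'] at hw1 hw3
          linear_combination hw3 - hw1 - hw2
        exact_mod_cast hfin
      · have hmem : (E + 1) * 10 ^ L + ex p ∈ S' := by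
          rw [hS', Finset.mem_image]
          exact ⟨p, Finset.mem_filter.mpr ⟨hp, hpl⟩, rfl⟩
        obtain ⟨k', hk'⟩ := hU4 _ hmem
        refine ⟨k' + k, ?_⟩
        rw [Function.iterate_add_apply, hk]
        have : (U * 10 ^ W + E + 1) * 10 ^ L + ex p
            = U * 10 ^ (b + a * (q + κ + n)) + ((E + 1) * 10 ^ L + ex p) := by
          rw [hpowL']; ring
        rw [this]
        exact hk'

end Pool.Agent.Lib.MP_44c96e_nt
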